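import Pool.Agent.H.MP_64713a_lc.B

set_option autoImplicit false

/-! Building a generic subset of a good set. -/

namespace Pool.Agent.H.MP_64713a_lc

open Pool.Agent.Lib.helper21.PR Filter Set Encodable Denumerable Nat.Partrec Nat.Partrec.Code

theorem limS (u : ℕ → S) (hu : ∀ k, u k <+: u (k + 1)) (hl : ∀ k, k ≤ (u k).length) :
    ∃ g : ℕ → ℕ, ∀ k m, m ≤ (u k).length → (List.range m).map g = (u k).take m := by
  have mo : ∀ k k', k ≤ k' → u k <+: u k' := fun k k' h => by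
    induction h with
    | refl => exact List.prefix_rfl
    | step _ ih => exact ih.trans (hu _)
  refine ⟨fun i => (u (i + 1)).getD i 0, fun k m h => List.ext_getElem (by simp [h]) fun i h1 h2 => ?_⟩
  have hi : i < (u k).length := by simp at h1; omega
  have : (u (i + 1)).getD i 0 = (u k).getD i 0 :=
    (getD_pre (mo _ _ (le_max_left (i + 1) k)) (hl _)).symm.trans (getD_pre (mo _ _ (le_max_right _ _)) hi)
  simp only [List.getElem_map, List.getElem_range, List.getElem_take, this]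
  simp [hi]

def WF (c n : ℕ) (b : ℕ → ℕ) : Prop :=
  ∀ f : ℕ → ℕ, ∃ m, ((ofNat Code c).eval (encode (n, (List.range m).map b, (List.range m).map f))).Dom

theorem exB {A X : Set ℕ} {Y : ℕ → Bool} (hG : Good (· ∈ A) Y)
    (hb : ∀ σ c c', ∃ n, ¬ (val Y σ (rt c c' n) ↔ n ∈ X)) :
    ∃ B : Set ℕ, B ⊆ A ∧ B.Infinite ∧ ∀ c c', ∃ n,
      ¬ ((n ∈ X ↔ WF c n (B.indicator fun _ => 1)) ∧ (n ∉ X ↔ WF c' n (B.indicator fun _ => 1))) := by
  let le : S × List Pos → S × List Pos → Prop := fun s s' => sub (· ∈ A) s.1 s'.1 ∧ s.2 ⊆ s'.2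
  have tr : ∀ {s s' s''}, le s s' → le s' s'' → le s s'' := fun h k => ⟨h.1.trans k.1, fun _ z => k.2 (h.2 z)⟩
  have res : ∀ {N σ Q τ}, Res N (· ∈ A) Y σ Q τ → ∃ s' : S × List Pos, vals Y s'.1 s'.2 ∧ le (σ, Q) s' ∧
      (ref τ.1 τ.2.2.1 s'.1 τ.2.2.2.1 ∨ ∃ m, nx τ m ∈ s'.2) := fun {N σ Q τ} ⟨j, _, _, h1, h2, h3⟩ => by
    rcases h3 with h3 | ⟨m, -, h3⟩
    · exact ⟨(dS j, Q), h2, ⟨h1, fun _ => id⟩, .inl h3⟩
    · exact ⟨(dS j, nx τ m :: Q), List.forall_mem_cons.2 ⟨h3, h2⟩, ⟨h1, List.subset_cons_self _ _⟩,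
        .inr ⟨m, List.mem_cons_self⟩⟩
  have step : ∀ (s : S × List Pos) (j : ℕ × ℕ × Pos × ℕ), ∃ s' : S × List Pos, vals Y s.1 s.2 →
      vals Y s'.1 s'.2 ∧ le s s' ∧ (∃ x < s'.1.length, s.1.length ≤ x ∧ s'.1.getD x 0 = 1) ∧
      (∃ n t, (n ∉ X ∧ (j.1, j.2.1, n, [], t) ∈ s'.2) ∨ (n ∈ X ∧ (j.2.1, j.1, n, [], t) ∈ s'.2)) ∧
      (j.2.2.1 ∈ s.2 → ref j.2.2.1.1 j.2.2.1.2.2.1 s'.1 (j.2.2.1.2.2.2.1 ++ [j.2.2.2]) ∨
        ∃ m, nx (sx j.2.2.1 j.2.2.2) m ∈ s'.2) := fun ⟨σ, Q⟩ ⟨c, c', q, m⟩ => by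
    by_cases h : vals Y σ Q
    swap
    · exact ⟨(σ, Q), fun k => (h k).elim⟩
    obtain ⟨N, g⟩ := hG.get (σ, Q, q, m)
    obtain ⟨x, -, x1, x2, x3⟩ := (g h).1
    obtain ⟨s2, a1, a2, n, t, a3⟩ : ∃ s' : S × List Pos, vals Y s'.1 s'.2 ∧ le (ext σ x, Q) s' ∧
        ∃ n t, (n ∉ X ∧ (c, c', n, [], t) ∈ s'.2) ∨ (n ∈ X ∧ (c', c, n, [], t) ∈ s'.2) := by
      obtain ⟨n, hn⟩ := hb (ext σ x) c c'
      by_cases z : val Y (ext σ x) (rt c c' n)
      · exact ⟨(ext σ x, rt c c' n :: Q), List.forall_mem_cons.2 ⟨z, x3⟩, ⟨sub.rfl _ _, List.subset_cons_self _ _⟩,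
          n, [], .inl ⟨fun y => hn (iff_of_true z y), List.mem_cons_self⟩⟩
      · obtain ⟨N, g⟩ := hG.get (ext σ x, Q, rt c' c n, 0)
        obtain ⟨s', b1, b2, ⟨_, b3, _⟩ | ⟨m, b3⟩⟩ := res ((g x3).2.2 z)
        · exact absurd b3 (Nat.not_lt_zero _)
        · exact ⟨s', b1, b2, n, _, .inr ⟨by_contra fun y => hn (iff_of_false z y), b3⟩⟩
    obtain ⟨s3, b1, b2, b3⟩ : ∃ s' : S × List Pos, vals Y s'.1 s'.2 ∧ le s2 s' ∧
        (q ∈ Q → ref q.1 q.2.2.1 s'.1 (q.2.2.2.1 ++ [m]) ∨ ∃ m', nx (sx q m) m' ∈ s'.2) := by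
      by_cases z : q ∈ Q
      · obtain ⟨N, g⟩ := hG.get (s2.1, s2.2, q, m)
        obtain ⟨s', b1, b2, b3⟩ := res ((g a1).2.1 (a1 q (a2.2 z)))
        exact ⟨s', b1, b2, fun _ => b3⟩
      · exact ⟨s2, a1, ⟨sub.rfl _ _, fun _ => id⟩, fun y => (z y).elim⟩
    have l := tr a2 b2
    have hx : x < (ext σ x).length := by rw [ext_len x1]; omega
    exact ⟨s3, fun _ => ⟨b1, tr (s' := (ext σ x, Q)) ⟨ext_sub x1 x2, fun _ => id⟩ l,
      ⟨x, hx.trans_le l.1.1.length_le, x1, (getD_pre l.1.1 hx).trans (ext_top x1)⟩,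
      ⟨n, t, a3.imp (fun z => ⟨z.1, b2.2 z.2⟩) fun z => ⟨z.1, b2.2 z.2⟩⟩, b3⟩⟩
  choose F hF using step
  obtain ⟨e, he⟩ := exists_surjective_nat (ℕ × ℕ × Pos × ℕ)
  let s : ℕ → S × List Pos := fun k => Nat.rec ([], []) (fun k x => F x (e k.unpair.1)) k
  have v : ∀ k, vals Y (s k).1 (s k).2 := fun k => by
    induction k with
    | zero => exact fun _ h => absurd h List.not_mem_nil
    | succ k ih => exact (hF _ _ ih).1
  have h1 := fun k => (hF (s k) (e k.unpair.1) (v k)).2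
  have mo : ∀ k k', k ≤ k' → le (s k) (s k') := fun k k' h => by
    induction h with
    | refl => exact ⟨sub.rfl _ _, fun _ => id⟩
    | step _ ih => exact tr ih (h1 _).1
  have hl : ∀ k, k ≤ (s k).1.length := fun k => by
    induction k with
    | zero => exact Nat.zero_le _
    | succ k ih =>
      obtain ⟨x, a, b, -⟩ := (h1 k).2.1
      exact Nat.succ_le_of_lt (lt_of_le_of_lt (ih.trans b) a)
  have often : ∀ j k, ∃ k' : ℕ, k ≤ k' ∧ e k'.unpair.1 = j := fun j k => by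
    obtain ⟨a, rfl⟩ := he j
    exact ⟨Nat.pair a k, Nat.right_le_pair _ _, by rw [Nat.unpair_pair]⟩
  obtain ⟨g, hg⟩ := limS (fun k => (s k).1) (fun k => (h1 k).1.1.1) hl
  have hg' : ∀ k i, i < (s k).1.length → g i = (s k).1.getD i 0 := fun k i h => by
    have := congrArg (fun l => l.getD i 0) (hg k (i + 1) h)
    simpa [List.getD_eq_getElem?_getD] using this
  have g01 : ∀ i, g i = 0 ∨ g i = 1 ∧ i ∈ A := fun i => by
    rw [hg' (i + 1) i (hl _)]
    exact (mo 0 (i + 1) (Nat.zero_le _)).1.2 i (hl _) (Nat.zero_le _)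
  have gi : ({i | g i = 1} : Set ℕ).indicator (fun _ => 1) = g := funext fun i => by
    by_cases c : g i = 1
    · rw [indicator_of_mem (show i ∈ {i | g i = 1} from c), c]
    · rw [indicator_of_notMem (show i ∉ {i | g i = 1} from c)]
      exact ((g01 i).resolve_right fun z => c z.1).symm
  have key : ∀ c c' n t k, (c, c', n, [], t) ∈ (s k).2 → WF c' n g → WF c n g := fun c c' n t₀ k₀ h₀ hw f => by
    by_contra hf
    have st : ∀ j t, ∃ m, (∃ k, (c, c', n, (List.range j).map f, t) ∈ (s k).2) →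
        ∃ k, (c, c', n, (List.range (j + 1)).map f, t ++ [m]) ∈ (s k).2 := fun j t => by
      by_cases z : ∃ k, (c, c', n, (List.range j).map f, t) ∈ (s k).2
      swap
      · exact ⟨0, fun y => (z y).elim⟩
      obtain ⟨k, z⟩ := z
      obtain ⟨k', a, b⟩ := often (0, 0, (c, c', n, (List.range j).map f, t), f j) k
      have := (hF (s k') (0, 0, (c, c', n, (List.range j).map f, t), f j) (v k')).2.2.2.2
      rw [← show s (k' + 1) = F (s k') (0, 0, (c, c', n, (List.range j).map f, t), f j) from b ▸ rfl] at this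
      have e : (List.range (j + 1)).map f = (List.range j).map f ++ [f j] := by simp [List.range_succ]
      rcases this ((mo _ _ a).2 z) with ⟨m, m1, m2, m3⟩ | ⟨m, y⟩
      · refine (hf ⟨m, ?_⟩).elim
        obtain ⟨x, hx⟩ := Option.isSome_iff_exists.1 m3
        have e2 : ((List.range j).map f ++ [f j]).take m = (List.range m).map f := by
          rw [← e, ← List.map_take, List.take_range, min_eq_left]
          simp at m1
          omega
        rw [hg (k' + 1) m m2, ← e2]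
        exact Part.dom_iff_mem.2 ⟨x, evaln_sound hx⟩
      · exact ⟨m, fun _ => ⟨k' + 1, e ▸ y⟩⟩
    choose M hM using st
    let t : ℕ → S := fun j => Nat.rec t₀ (fun j x => x ++ [M j x]) j
    have ht : ∀ j, ∃ k, (c, c', n, (List.range j).map f, t j) ∈ (s k).2 := fun j => by
      induction j with
      | zero => exact ⟨k₀, h₀⟩
      | succ j ih => exact hM _ _ ih
    have tl : ∀ j, j ≤ (t j).length := fun j => by
      induction j with
      | zero => exact Nat.zero_le _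
      | succ j ih =>
        show j + 1 ≤ (t j ++ [M j (t j)]).length
        simpa using ih
    obtain ⟨f', hf'⟩ := limS t (fun k => List.prefix_append _ _) tl
    obtain ⟨m, hm⟩ := hw f'
    obtain ⟨x, hx⟩ := Part.dom_iff_mem.1 hm
    obtain ⟨r, hr⟩ := evaln_complete.1 hx
    obtain ⟨k, hk⟩ := ht (m + 1)
    have l := hl (k + m + r)
    refine (v (k + m + r) _ ((mo k _ (by omega)).2 hk)).2 ⟨m, tl (m + 1), by omega, ?_⟩
    rw [hg (k + m + r) m (by omega), hf' (m + 1) m (by have := tl (m + 1); omega)] at hr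
    exact Option.isSome_iff_exists.2 ⟨x, evaln_mono (by omega) hr⟩
  refine ⟨{i | g i = 1}, fun i h => ((g01 i).resolve_left fun z => zero_ne_one (z.symm.trans h)).2,
    Set.infinite_of_forall_exists_gt fun a => ?_, fun c c' => ?_⟩
  · obtain ⟨x, x1, x2, x3⟩ := (h1 (a + 1)).2.1
    exact ⟨x, (hg' (a + 2) x x1).trans x3, (hl (a + 1)).trans x2⟩
  · obtain ⟨k, -, b⟩ := often (c, c', rt 0 0 0, 0) 0
    have := (hF (s k) (c, c', rt 0 0 0, 0) (v k)).2.2.2.1
    rw [← show s (k + 1) = F (s k) (c, c', rt 0 0 0, 0) from b ▸ rfl] at this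
    obtain ⟨n, t, z | z⟩ := this <;> refine ⟨n, fun y => ?_⟩ <;> rw [gi] at y
    · exact z.1 (y.1.2 (key _ _ _ _ (k + 1) z.2 (y.2.1 z.1)))
    · exact y.2.2 (key _ _ _ _ (k + 1) z.2 (y.1.1 z.1)) z.1

end Pool.Agent.H.MP_64713a_lc
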