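import Mathlib
import Pool.Agent.Lib.helper21.PR

set_option autoImplicit false

/-! Measure lemmas: limits of weighted lists, finite approximation, essential suprema. -/

namespace Pool.Agent.H.MP_64713a_lc

open Pool.Agent.Lib.helper21.PR MeasureTheory Filter Topology Set

noncomputable def mass {K : Type} (L : List (K × ℕ)) (E : K → Prop) : ℕ :=
  (L.map fun p => bif cd (E p.1) then p.2 else 0).sum

theorem mass_cons {K : Type} (p : K × ℕ) (L : List (K × ℕ)) (E : K → Prop) :
    mass (p :: L) E = (bif cd (E p.1) then p.2 else 0) + mass L E := by simp [mass]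

theorem cd_false {p : Prop} (h : ¬ p) : cd p = false := Bool.eq_false_iff.2 (mt cd_true.1 h)

theorem mass_map {K K' : Type} (f : K → K') (L : List (K × ℕ)) (E : K' → Prop) :
    mass (L.map fun p => (f p.1, p.2)) E = mass L fun x => E (f x) := by
  simp [mass, Function.comp_def]

theorem mass_mono {K : Type} (L : List (K × ℕ)) {E E' : K → Prop} (h : ∀ x, E x → E' x) :
    mass L E ≤ mass L E' := by
  induction L with
  | nil => simp [mass]
  | cons p L ih =>
    rw [mass_cons, mass_cons]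
    refine Nat.add_le_add ?_ ih
    by_cases c : E p.1
    · rw [cd_true.2 c, cd_true.2 (h _ c)]
    · rw [cd_false c]; exact Nat.zero_le _

theorem mass_split {K : Type} (L : List (K × ℕ)) (E G : K → Prop) :
    mass L E = mass L (fun x => G x ∧ E x) + mass L (fun x => ¬ G x ∧ E x) := by
  induction L with
  | nil => simp [mass]
  | cons p L ih =>
    rw [mass_cons, mass_cons, mass_cons, ih]
    by_cases c : E p.1 <;> by_cases g : G p.1
    · rw [cd_true.2 c, cd_true.2 (⟨g, c⟩ : G p.1 ∧ E p.1), cd_false (fun k : ¬ G p.1 ∧ E p.1 => k.1 g)]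
      simp only [cond_true, cond_false]; omega
    · rw [cd_true.2 c, cd_true.2 (⟨g, c⟩ : ¬ G p.1 ∧ E p.1), cd_false (fun k : G p.1 ∧ E p.1 => g k.1)]
      simp only [cond_true, cond_false]; omega
    · rw [cd_false c, cd_false (fun k : ¬ G p.1 ∧ E p.1 => c k.2), cd_false (fun k : G p.1 ∧ E p.1 => c k.2)]
      simp only [cond_false]; omega
    · rw [cd_false c, cd_false (fun k : ¬ G p.1 ∧ E p.1 => c k.2), cd_false (fun k : G p.1 ∧ E p.1 => c k.2)]
      simp only [cond_false]; omega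

noncomputable def emp {K : Type} [MeasurableSpace K] (L : List (K × ℕ)) : Measure K :=
  (L.map fun p => (p.2 : ENNReal) • Measure.dirac p.1).sum

theorem emp_apply {K : Type} [MeasurableSpace K] (L : List (K × ℕ)) {E : Set K} (h : MeasurableSet E) :
    emp L E = mass L (· ∈ E) := by
  induction L with
  | nil => simp [emp, mass]
  | cons p L ih =>
    have : emp (p :: L) = (p.2 : ENNReal) • Measure.dirac p.1 + emp L := by simp [emp]
    rw [this, Measure.add_apply, ih, mass_cons, Measure.smul_apply, Measure.dirac_apply' _ h]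
    by_cases c : p.1 ∈ E
    · rw [cd_true.2 c, indicator_of_mem c]; simp
    · rw [cd_false c, indicator_of_notMem c]; simp

theorem exP {K : Type} [TopologicalSpace K] [T2Space K] [CompactSpace K] [MeasurableSpace K] [BorelSpace K]
    (L : ℕ → List (K × ℕ)) (h : ∀ k, 0 < mass (L k) fun _ => True) :
    ∃ P : Measure K, IsProbabilityMeasure P ∧ ∀ (E E' : Set K) (a b : ℕ), IsClopen E → IsClopen E' →
      (∀ᶠ k in atTop, a * mass (L k) (· ∈ E) ≤ b * mass (L k) (· ∈ E')) → a * P.real E ≤ b * P.real E' := by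
  let W : ℕ → ℕ := fun k => mass (L k) fun _ => True
  have hW : ∀ k, emp (L k) univ = W k := fun k => by rw [emp_apply _ MeasurableSet.univ]; rfl
  have hp : ∀ k, IsProbabilityMeasure ((W k : ENNReal)⁻¹ • emp (L k)) := fun k => ⟨by
    rw [Measure.smul_apply, hW, smul_eq_mul]
    exact ENNReal.inv_mul_cancel (by exact_mod_cast (h k).ne') (ENNReal.natCast_ne_top _)⟩
  let Q : ℕ → ProbabilityMeasure K := fun k => ⟨_, hp k⟩
  have hQ : ∀ k (E : Set K), MeasurableSet E → (Q k : Measure K).real E = (W k : ℝ)⁻¹ * mass (L k) (· ∈ E) :=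
    fun k E hE => by
      show (((W k : ENNReal)⁻¹ • emp (L k)) E).toReal = _
      rw [Measure.smul_apply, emp_apply _ hE, smul_eq_mul, ENNReal.toReal_mul, ENNReal.toReal_inv]
      simp
  obtain ⟨P, hP⟩ : ∃ P, Tendsto Q (hyperfilter ℕ) (𝓝 P) :=
    ⟨_, (Ultrafilter.map Q (hyperfilter ℕ)).le_nhds_lim⟩
  have lim : ∀ E : Set K, IsClopen E →
      Tendsto (fun k => (Q k : Measure K).real E) (hyperfilter ℕ) (𝓝 ((P : Measure K).real E)) := fun E hE => by
    have := ProbabilityMeasure.tendsto_iff_forall_integral_tendsto.1 hP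
      (BoundedContinuousFunction.indicator E hE)
    have e : ∀ μ : Measure K, ∫ x, BoundedContinuousFunction.indicator E hE x ∂μ = μ.real E := fun μ =>
      integral_indicator_one hE.isOpen.measurableSet
    simpa only [e] using this
  refine ⟨P, inferInstance, fun E E' a b hE hE' hk => ?_⟩
  refine le_of_tendsto_of_tendsto ((lim E hE).const_mul (a : ℝ)) ((lim E' hE').const_mul (b : ℝ)) ?_
  filter_upwards [Nat.hyperfilter_le_atTop hk] with k hk
  rw [hQ k E hE.isOpen.measurableSet, hQ k E' hE'.isOpen.measurableSet, mul_left_comm, mul_left_comm (b : ℝ)]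
  exact mul_le_mul_of_nonneg_left (by exact_mod_cast hk) (by positivity)

theorem approx {Ω J : Type} [MeasurableSpace Ω] [Fintype J] (P : Measure Ω) [IsProbabilityMeasure P]
    (E : J → Set Ω) (hE : ∀ j, MeasurableSet (E j)) (κ : ℕ) (h : ∀ j, 1 < κ * P.real (E j)) :
    ∃ L : List (Ω × ℕ), 0 < mass L (fun _ => True) ∧ ∀ j, mass L (fun _ => True) ≤ κ * mass L (· ∈ E j) := by
  classical
  have ne : Nonempty Ω := nonempty_of_isProbabilityMeasure P
  let φ : Ω → J → Bool := fun ω j => cd (ω ∈ E j)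
  have hφ : ∀ τ, MeasurableSet (φ ⁻¹' {τ}) := fun τ => by
    have : φ ⁻¹' {τ} = ⋂ j, {ω | ω ∈ E j ↔ τ j = true} := by
      ext ω
      simp only [mem_preimage, mem_singleton_iff, mem_iInter, mem_setOf_eq, funext_iff, φ]
      exact forall_congr' fun j => by rw [Bool.eq_iff_iff, cd_true]
    rw [this]
    refine MeasurableSet.iInter fun j => ?_
    cases τ j
    · have : {ω | ω ∈ E j ↔ false = true} = (E j)ᶜ := by ext; simp
      rw [this]; exact (hE j).compl
    · simpa using hE j
  let p : (J → Bool) → ℝ := fun τ => P.real (φ ⁻¹' {τ})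
  have hx : ∀ τ, ∃ ω, p τ ≠ 0 → φ ω = τ := fun τ => by
    by_cases c : (φ ⁻¹' {τ}).Nonempty
    · exact ⟨c.some, fun _ => c.some_mem⟩
    · exact ⟨ne.some, fun k => (k (by simp [p, not_nonempty_iff_eq_empty.1 c])).elim⟩
  choose x hx using hx
  let c : ℝ := Fintype.card (J → Bool)
  have s1 : ∑ τ, p τ = 1 := by
    rw [sum_measureReal_preimage_singleton _ fun τ _ => hφ τ]; simp
  have s2 : ∀ j, ∑ τ ∈ Finset.univ.filter (fun τ : J → Bool => τ j = true), p τ = P.real (E j) := fun j => by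
    rw [sum_measureReal_preimage_singleton _ fun τ _ => hφ τ]
    congr 1
    ext ω
    simp [φ]
  obtain ⟨M, hM, hM'⟩ : ∃ M : ℕ, c < M ∧ ∀ j, κ * c / (κ * P.real (E j) - 1) ≤ M := by
    refine (((tendsto_natCast_atTop_atTop (R := ℝ)).eventually_gt_atTop c).and
      (eventually_all.2 fun j => (tendsto_natCast_atTop_atTop (R := ℝ)).eventually_ge_atTop _)).exists
  let w : (J → Bool) → ℕ := fun τ => ⌊M * p τ⌋₊
  have w1 : ∀ τ, (w τ : ℝ) ≤ M * p τ := fun τ => Nat.floor_le (by positivity)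
  have w2 : ∀ τ, M * p τ - 1 ≤ w τ := fun τ => (Nat.sub_one_lt_floor _).le
  have ms : ∀ G : Ω → Prop, mass (Finset.univ.toList.map fun τ => (x τ, w τ)) G =
      ∑ τ, bif cd (G (x τ)) then w τ else 0 := fun G => by
    rw [mass, List.map_map, Finset.sum_map_toList]; rfl
  have t1 : (mass (Finset.univ.toList.map fun τ => (x τ, w τ)) (fun _ => True) : ℝ) = ∑ τ, (w τ : ℝ) := by
    rw [ms, cd_true.2 trivial]; simp
  have t2 : ∑ τ, (w τ : ℝ) ≤ M := by
    calc _ ≤ ∑ τ, M * p τ := Finset.sum_le_sum fun τ _ => w1 τ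
      _ = M := by rw [← Finset.mul_sum, s1, mul_one]
  have t3 : M - c ≤ ∑ τ, (w τ : ℝ) := by
    calc _ = ∑ τ, (M * p τ - 1) := by rw [Finset.sum_sub_distrib, ← Finset.mul_sum, s1]; simp [c]
      _ ≤ _ := Finset.sum_le_sum fun τ _ => w2 τ
  refine ⟨Finset.univ.toList.map fun τ => (x τ, w τ), ?_, fun j => ?_⟩
  · have : (0 : ℝ) < mass (Finset.univ.toList.map fun τ => (x τ, w τ)) (fun _ => True) := by
      rw [t1]; linarith
    exact_mod_cast this
  · have t4 : M * P.real (E j) - c ≤ mass (Finset.univ.toList.map fun τ => (x τ, w τ)) (· ∈ E j) := by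
      rw [ms, ← s2, Finset.mul_sum, Finset.sum_filter, Nat.cast_sum]
      have : c = ∑ _τ : J → Bool, (1 : ℝ) := by simp [c]
      rw [this, ← Finset.sum_sub_distrib]
      refine Finset.sum_le_sum fun τ _ => ?_
      split_ifs with g
      · by_cases z : p τ = 0
        · rw [z, mul_zero]
          exact le_trans (by norm_num) (Nat.cast_nonneg _)
        · have : cd (x τ ∈ E j) = true := (congrFun (hx τ z) j).trans g
          rw [this]; exact w2 τ
      · exact le_trans (by norm_num) (Nat.cast_nonneg _)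
    have t5 := (div_le_iff₀ (sub_pos.2 (h j))).1 (hM' j)
    have : (mass (Finset.univ.toList.map fun τ => (x τ, w τ)) (fun _ => True) : ℝ) ≤
        κ * mass (Finset.univ.toList.map fun τ => (x τ, w τ)) (· ∈ E j) := by
      rw [t1]
      nlinarith [mul_le_mul_of_nonneg_left t4 (Nat.cast_nonneg (α := ℝ) κ)]
    exact_mod_cast this

theorem esup {Ω ι : Type} [MeasurableSpace Ω] [Countable ι] (P : Measure Ω) [IsFiniteMeasure P]
    (C : (ι → Set Ω) → Prop) (hm : ∀ W, C W → ∀ i, MeasurableSet (W i)) (h0 : ∃ W, C W)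
    (hU : ∀ g : ℕ → ι → Set Ω, (∀ k, C (g k)) → C fun i => ⋃ k, g k i) :
    ∃ W, C W ∧ ∀ V, C V → ∀ i, ∀ᵐ ω ∂P, ω ∈ V i → ω ∈ W i := by
  obtain ⟨W0, h0⟩ := h0
  have bd : ∀ i, BddAbove {r | ∃ W, C W ∧ P.real (W i) = r} := fun i =>
    ⟨P.real univ, by rintro _ ⟨W, -, rfl⟩; exact measureReal_mono (subset_univ _)⟩
  have ex : ∀ i (k : ℕ), ∃ W, C W ∧ sSup {r | ∃ W, C W ∧ P.real (W i) = r} - 1 / (k + 1) < P.real (W i) :=
    fun i k => by
      obtain ⟨_, ⟨W, h, rfl⟩, h'⟩ := exists_lt_of_lt_csSup (s := {r | ∃ W, C W ∧ P.real (W i) = r})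
        ⟨_, W0, h0, rfl⟩ (sub_lt_self _ (by positivity : (0 : ℝ) < 1 / (k + 1)))
      exact ⟨W, h, h'⟩
  choose G G1 G2 using ex
  rcases isEmpty_or_nonempty ι with c | c
  · exact ⟨W0, h0, fun V _ i => c.elim i⟩
  obtain ⟨e, he⟩ := exists_surjective_nat (ι × ℕ)
  have hW := hU (fun n => G (e n).1 (e n).2) fun n => G1 _ _
  refine ⟨_, hW, fun V hV i => ?_⟩
  set W : ι → Set Ω := fun i => ⋃ k, G (e k).1 (e k).2 i with hWd
  have h2 := hU (fun n => if n = 0 then V else W) fun n => by split_ifs <;> assumption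
  have e2 : (⋃ n : ℕ, (if n = 0 then V else W) i) = W i ∪ V i := by
    ext ω
    simp only [mem_iUnion, mem_union]
    exact ⟨fun ⟨n, h⟩ => by split_ifs at h; exacts [.inr h, .inl h],
      fun h => h.elim (fun h => ⟨1, h⟩) fun h => ⟨0, h⟩⟩
  have l1 : P.real (W i ∪ V i) ≤ sSup {r | ∃ W, C W ∧ P.real (W i) = r} := le_csSup (bd i) ⟨_, h2, by rw [e2]⟩
  have l2 : sSup {r | ∃ W, C W ∧ P.real (W i) = r} ≤ P.real (W i) := by
    refine le_of_forall_pos_le_add fun ε hε => ?_
    obtain ⟨k, hk⟩ := exists_nat_one_div_lt hε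
    obtain ⟨n, hn⟩ := he (i, k)
    have : P.real (G i k i) ≤ P.real (W i) :=
      measureReal_mono fun ω h => mem_iUnion.2 ⟨n, by rw [hn]; exact h⟩
    linarith [G2 i k]
  have l3 : P.real (W i ∪ V i) = P.real (W i) + P.real (V i \ W i) := by
    rw [← measureReal_union disjoint_sdiff_right ((hm V hV i).diff (hm _ hW i)), union_diff_self]
  have l4 : P (V i \ W i) = 0 := by
    rw [← measureReal_eq_zero_iff]
    exact le_antisymm (by linarith) measureReal_nonneg
  filter_upwards [measure_eq_zero_iff_ae_notMem.1 l4] with ω h k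
  exact by_contra fun z => h ⟨k, z⟩

end Pool.Agent.H.MP_64713a_lc
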