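import Pool.Agent.H.MP_64713a_lc.A

set_option autoImplicit false

/-! Systems of embedding positions, their tasks, effectiveness and continuity. -/

namespace Pool.Agent.H.MP_64713a_lc

open Pool.Agent.Lib.helper21.PR Filter Topology Set Encodable Denumerable Nat.Partrec Nat.Partrec.Code

attribute [local irreducible] Primrec Computable

abbrev S := List ℕ
abbrev Pos := ℕ × ℕ × ℕ × S × S
abbrev T := S × List Pos × Pos × ℕ

def ref (c n : ℕ) (σ s : S) : Prop :=
  ∃ m < s.length, m ≤ σ.length ∧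
    (evaln σ.length (ofNat Code c) (encode (n, σ.take m, s.take m))).isSome = true
def val (Y : ℕ → Bool) (σ : S) (q : Pos) : Prop :=
  Y (encode (σ, q)) = true ∧ ¬ ref q.2.1 q.2.2.1 σ q.2.2.2.2
def vals (Y : ℕ → Bool) (σ : S) (Q : List Pos) : Prop := ∀ q ∈ Q, val Y σ q
def sub (A : ℕ → Prop) (σ σ' : S) : Prop :=
  σ <+: σ' ∧ ∀ i < σ'.length, σ.length ≤ i → σ'.getD i 0 = 0 ∨ (σ'.getD i 0 = 1 ∧ A i)
def nx (q : Pos) (m : ℕ) : Pos := (q.1, q.2.1, q.2.2.1, q.2.2.2.1, q.2.2.2.2 ++ [m])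
def sx (q : Pos) (m : ℕ) : Pos := (q.1, q.2.1, q.2.2.1, q.2.2.2.1 ++ [m], q.2.2.2.2)
def rt (c c' n : ℕ) : Pos := (c, c', n, [], [])
def D (N : ℕ) (Y : ℕ → Bool) (τ : Pos) (σ : S) : Prop :=
  ref τ.1 τ.2.2.1 σ τ.2.2.2.1 ∨ ∃ m < N, val Y σ (nx τ m)
def dS (j : ℕ) : S := (decode (α := S) j).getD []
def dT (j : ℕ) : T := (decode (α := T) j).getD ([], [], rt 0 0 0, 0)
def Res (N : ℕ) (A : ℕ → Prop) (Y : ℕ → Bool) (σ : S) (Q : List Pos) (τ : Pos) : Prop :=
  ∃ j < N, (dS j).length ≤ N ∧ sub A σ (dS j) ∧ vals Y (dS j) Q ∧ D N Y τ (dS j)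
def ext (σ : S) (x : ℕ) : S := σ ++ List.replicate (x - σ.length) 0 ++ [1]
def good1 (N : ℕ) (A : ℕ → Prop) (Y : ℕ → Bool) (r : T) : Prop :=
  vals Y r.1 r.2.1 → (∃ x < N, r.1.length ≤ x ∧ A x ∧ vals Y (ext r.1 x) r.2.1) ∧
    (val Y r.1 r.2.2.1 → Res N A Y r.1 r.2.1 (sx r.2.2.1 r.2.2.2)) ∧
    (¬ val Y r.1 (rt r.2.2.1.2.1 r.2.2.1.1 r.2.2.1.2.2.1) →
      Res N A Y r.1 r.2.1 (rt r.2.2.1.1 r.2.2.1.2.1 r.2.2.1.2.2.1))
def good (R N : ℕ) (A : ℕ → Prop) (Y : ℕ → Bool) : Prop := ∀ r < R, good1 N A Y (dT r)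
def Good (A : ℕ → Prop) (Y : ℕ → Bool) : Prop := ∀ R, ∃ N, good R N A Y
def pt (y : List Bool) (i : ℕ) : Bool := y.getD i false
def tb (a i : ℕ) : Prop := a / 2 ^ i % 2 = 1

theorem dS_enc (σ : S) : dS (encode σ) = σ := by rw [dS, encodek]; rfl
theorem dT_enc (r : T) : dT (encode r) = r := by rw [dT, encodek]; rfl

section
variable {α : Type} [Primcodable α] {c c' n m N R a : α → ℕ} {σ s : α → S} {y : α → List Bool} {q : α → Pos}
  {Q : α → List Pos} {r : α → T}

@[fun_prop] theorem p_ref (hc : Primrec c) (hn : Primrec n) (hσ : Primrec σ) (hs : Primrec s) :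
    Primrec fun x => cd (ref (c x) (n x) (σ x) (s x)) := by unfold ref; fun_prop
@[fun_prop] theorem p_val (hy : Primrec y) (hσ : Primrec σ) (hq : Primrec q) :
    Primrec fun x => cd (val (pt (y x)) (σ x) (q x)) := by unfold val pt; fun_prop
@[fun_prop] theorem p_vals (hy : Primrec y) (hσ : Primrec σ) (hq : Primrec Q) :
    Primrec fun x => cd (vals (pt (y x)) (σ x) (Q x)) := by unfold vals; fun_prop
@[fun_prop] theorem p_tb (ha : Primrec a) (hn : Primrec n) : Primrec fun x => cd (tb (a x) (n x)) := by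
  unfold tb; fun_prop
@[fun_prop] theorem p_subs (ha : Primrec a) (hσ : Primrec σ) (hs : Primrec s) :
    Primrec fun x => cd (sub (tb (a x)) (σ x) (s x)) := by unfold sub; fun_prop
@[fun_prop] theorem p_nx (hq : Primrec q) (hm : Primrec m) : Primrec fun x => nx (q x) (m x) := by
  unfold nx; fun_prop
@[fun_prop] theorem p_sx (hq : Primrec q) (hm : Primrec m) : Primrec fun x => sx (q x) (m x) := by
  unfold sx; fun_prop
@[fun_prop] theorem p_rt (hc : Primrec c) (hc' : Primrec c') (hn : Primrec n) :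
    Primrec fun x => rt (c x) (c' x) (n x) := by unfold rt; fun_prop
@[fun_prop] theorem p_D (hN : Primrec N) (hy : Primrec y) (hq : Primrec q) (hσ : Primrec σ) :
    Primrec fun x => cd (D (N x) (pt (y x)) (q x) (σ x)) := by unfold D; fun_prop
@[fun_prop] theorem p_dS (hn : Primrec n) : Primrec fun x => dS (n x) := by unfold dS; fun_prop
@[fun_prop] theorem p_dT (hn : Primrec n) : Primrec fun x => dT (n x) := by unfold dT; fun_prop
@[fun_prop] theorem p_Res (hN : Primrec N) (ha : Primrec a) (hy : Primrec y) (hσ : Primrec σ) (hQ : Primrec Q)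
    (hq : Primrec q) : Primrec fun x => cd (Res (N x) (tb (a x)) (pt (y x)) (σ x) (Q x) (q x)) := by
  unfold Res; fun_prop
@[fun_prop] theorem p_ext (hσ : Primrec σ) (hn : Primrec n) : Primrec fun x => ext (σ x) (n x) := by
  unfold ext; fun_prop
@[fun_prop] theorem p_good1 (hN : Primrec N) (ha : Primrec a) (hy : Primrec y) (hr : Primrec r) :
    Primrec fun x => cd (good1 (N x) (tb (a x)) (pt (y x)) (r x)) := by unfold good1; fun_prop
@[fun_prop] theorem p_good (hR : Primrec R) (hN : Primrec N) (ha : Primrec a) (hy : Primrec y) :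
    Primrec fun x => cd (good (R x) (N x) (tb (a x)) (pt (y x))) := by unfold good; fun_prop
end

def Cl (p : (ℕ → Bool) → Prop) : Prop := IsClopen {Y | p Y}

section
variable {p q : (ℕ → Bool) → Prop}
theorem Cl.const (b : Prop) : Cl fun _ => b := by
  by_cases h : b
  · simpa [Cl, h] using isClopen_univ
  · simpa [Cl, h] using isClopen_empty
theorem Cl.and (hp : Cl p) (hq : Cl q) : Cl fun Y => p Y ∧ q Y := IsClopen.inter hp hq
theorem Cl.or (hp : Cl p) (hq : Cl q) : Cl fun Y => p Y ∨ q Y := IsClopen.union hp hq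
theorem Cl.not (hp : Cl p) : Cl fun Y => ¬ p Y := IsClopen.compl hp
theorem Cl.imp (hp : Cl p) (hq : Cl q) : Cl fun Y => p Y → q Y := by
  simpa only [imp_iff_not_or] using hp.not.or hq
theorem Cl.iff (hp : Cl p) (hq : Cl q) : Cl fun Y => p Y ↔ q Y := by
  simpa only [iff_def] using (hp.imp hq).and (hq.imp hp)
theorem Cl.all {β : Type} {p : β → (ℕ → Bool) → Prop} (l : List β) (h : ∀ b, Cl (p b)) :
    Cl fun Y => ∀ b ∈ l, p b Y := by
  induction l with
  | nil => simpa using Cl.const True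
  | cons b l ih => simpa only [List.forall_mem_cons] using (h b).and ih
theorem Cl.all_lt {p : ℕ → (ℕ → Bool) → Prop} (N : ℕ) (h : ∀ b, Cl (p b)) : Cl fun Y => ∀ b < N, p b Y := by
  simpa only [List.mem_range] using Cl.all (List.range N) h
theorem Cl.ex_lt {p : ℕ → (ℕ → Bool) → Prop} (N : ℕ) (h : ∀ b, Cl (p b)) : Cl fun Y => ∃ b < N, p b Y := by
  simpa only [not_forall, not_not, exists_prop] using (Cl.all_lt N fun b => (h b).not).not
end

theorem cl_val (σ : S) (q : Pos) : Cl fun Y => val Y σ q :=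
  Cl.and ((isClopen_discrete {true}).preimage (continuous_apply (encode (σ, q)))) (.const _)
theorem cl_vals (σ : S) (Q : List Pos) : Cl fun Y => vals Y σ Q := .all Q fun q => cl_val σ q
theorem cl_Res (N : ℕ) (A : ℕ → Prop) (σ : S) (Q : List Pos) (τ : Pos) : Cl fun Y => Res N A Y σ Q τ :=
  .ex_lt N fun _ => (Cl.const _).and ((Cl.const _).and ((cl_vals _ _).and
    ((Cl.const _).or (.ex_lt N fun _ => cl_val _ _))))
theorem cl_good (R N : ℕ) (A : ℕ → Prop) : Cl fun Y => good R N A Y :=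
  .all_lt R fun _ => (cl_vals _ _).imp ((Cl.ex_lt N fun _ => (Cl.const _).and ((Cl.const _).and (cl_vals _ _))).and
    (((cl_val _ _).imp (cl_Res _ _ _ _ _)).and ((cl_val _ _).not.imp (cl_Res _ _ _ _ _))))

section
variable {N N' : ℕ} {A A' : ℕ → Prop} {Y : ℕ → Bool}

theorem Res.mono {σ : S} {Q : List Pos} {τ : Pos} (h : Res N A Y σ Q τ) (hN : N ≤ N')
    (hA : ∀ i < N, A i → A' i) : Res N' A' Y σ Q τ := by
  obtain ⟨j, h1, h2, h3, h4, h5⟩ := h
  refine ⟨j, h1.trans_le hN, h2.trans hN, ⟨h3.1, fun i hi k => (h3.2 i hi k).imp_right fun z =>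
    ⟨z.1, hA i (hi.trans_le h2) z.2⟩⟩, h4, h5.imp_right fun ⟨m, z, z'⟩ => ⟨m, z.trans_le hN, z'⟩⟩

theorem good1.mono {r : T} (h : good1 N A Y r) (hN : N ≤ N') (hA : ∀ i < N, A i → A' i) : good1 N' A' Y r :=
  fun k => by
    obtain ⟨⟨x, h1, h2, h3, h4⟩, h5, h6⟩ := h k
    exact ⟨⟨x, h1.trans_le hN, h2, hA x h1 h3, h4⟩, fun z => (h5 z).mono hN hA, fun z => (h6 z).mono hN hA⟩

theorem good.mono {R : ℕ} (h : good R N A Y) (hN : N ≤ N') (hA : ∀ i < N, A i → A' i) : good R N' A' Y :=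
  fun r k => (h r k).mono hN hA

theorem Good.of (h : ∀ r : T, ∃ N, good1 N A Y r) : Good A Y := fun R => by
  choose N hN using h
  refine ⟨(Finset.range R).sup fun r => N (dT r), fun r k => (hN _).mono ?_ fun _ _ => id⟩
  exact Finset.le_sup (f := fun r => N (dT r)) (Finset.mem_range.2 k)

theorem Good.get (h : Good A Y) (r : T) : ∃ N, good1 N A Y r := by
  obtain ⟨N, h⟩ := h (encode r + 1)
  exact ⟨N, dT_enc r ▸ h _ (Nat.lt_succ_self _)⟩

theorem Res.of {σ σ' : S} {Q : List Pos} {τ : Pos} (h1 : sub A σ σ') (h2 : vals Y σ' Q)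
    (h3 : ref τ.1 τ.2.2.1 σ' τ.2.2.2.1 ∨ ∃ m, val Y σ' (nx τ m)) : ∃ N, Res N A Y σ Q τ := by
  obtain ⟨m, h3⟩ : ∃ m, D m Y τ σ' := h3.elim (fun h => ⟨0, .inl h⟩) fun ⟨m, h⟩ => ⟨m + 1, .inr ⟨m, by omega, h⟩⟩
  refine ⟨m + encode σ' + σ'.length + 1, encode σ', by omega, ?_⟩
  rw [dS_enc]
  exact ⟨by omega, h1, h2, h3.imp_right fun ⟨k, z, z'⟩ => ⟨k, by omega, z'⟩⟩

theorem sub.rfl (A : ℕ → Prop) (σ : S) : sub A σ σ := ⟨List.prefix_rfl, fun _ h k => by omega⟩

theorem getD_pre {σ σ' : S} (h : σ <+: σ') {i : ℕ} (k : i < σ.length) : σ'.getD i 0 = σ.getD i 0 := by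
  obtain ⟨t, rfl⟩ := h
  simp [List.getD_eq_getElem?_getD, List.getElem?_append_left k]

theorem sub.trans {σ σ' σ'' : S} (h : sub A σ σ') (k : sub A σ' σ'') : sub A σ σ'' :=
  ⟨h.1.trans k.1, fun i hi z => by
    by_cases c : i < σ'.length
    · rw [getD_pre k.1 c]; exact h.2 i c z
    · exact k.2 i hi (by omega)⟩

theorem ext_len {σ : S} {x : ℕ} (h : σ.length ≤ x) : (ext σ x).length = x + 1 := by
  simp [ext]; omega

theorem ext_top {σ : S} {x : ℕ} (h : σ.length ≤ x) : (ext σ x).getD x 0 = 1 := by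
  have : x = (σ ++ List.replicate (x - σ.length) 0).length := by simp; omega
  unfold ext
  rw [List.getD_eq_getElem?_getD, List.getElem?_append_right this.ge, ← this]
  simp

theorem ext_sub {σ : S} {x : ℕ} (h : σ.length ≤ x) (k : A x) : sub A σ (ext σ x) := by
  refine ⟨by unfold ext; rw [List.append_assoc]; exact List.prefix_append _ _, fun i hi z => ?_⟩
  rw [ext_len h] at hi
  rcases Nat.lt_succ_iff_lt_or_eq.1 hi with c | rfl
  · left
    unfold ext
    rw [List.getD_eq_getElem?_getD, List.getElem?_append_left (by simp; omega), List.getElem?_append_right z,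
      List.getElem?_replicate]
    split_ifs <;> rfl
  · exact .inr ⟨ext_top h, k⟩
end

end Pool.Agent.H.MP_64713a_lc
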