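import Pool.Agent.H.MP_64713a_lc.B

set_option autoImplicit false

/-! A measurable system attached to a random filter. -/

namespace Pool.Agent.H.MP_64713a_lc

open Pool.Agent.Lib.helper21.PR MeasureTheory Filter Topology Set Encodable

section
variable {Ω : Type} [MeasurableSpace Ω] (P : Measure Ω) (U : Ω → Filter ℕ)

def Ucl (V : S → Set Ω) : Prop := ∀ σ, ∀ᵐ ω ∂P, ω ∈ V σ → ∀ᶠ x in U ω, ω ∈ V (ext σ x)
def Av (E V : S → Set Ω) : Prop :=
  (∀ σ, MeasurableSet (V σ)) ∧ Ucl P U V ∧ ∀ σ, ∀ᵐ ω ∂P, ω ∈ V σ → ω ∉ E σ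
def DD (W : S × Pos → Set Ω) (τ : Pos) (σ : S) : Set Ω :=
  {ω | ref τ.1 τ.2.2.1 σ τ.2.2.2.1 ∨ ∃ m, ω ∈ W (σ, nx τ m)}
def Post (W : S × Pos → Set Ω) : Prop :=
  (∀ i, MeasurableSet (W i)) ∧ (∀ σ q, ref q.2.1 q.2.2.1 σ q.2.2.2.2 → ∀ᵐ ω ∂P, ω ∉ W (σ, q)) ∧
    (∀ q, Ucl P U fun σ => W (σ, q)) ∧
      ∀ q m V, Av P U (DD W (sx q m)) V → ∀ σ, ∀ᵐ ω ∂P, ω ∈ W (σ, q) → ω ∉ V σ
def fl (q : Pos) : Pos := (q.2.1, q.1, q.2.2.1, q.2.2.2.2, q.2.2.2.1)

variable {P U}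

theorem Ucl.union {g : ℕ → S → Set Ω} (h : ∀ k, Ucl P U (g k)) : Ucl P U fun σ => ⋃ k, g k σ := fun σ => by
  filter_upwards [ae_all_iff.2 fun k => h k σ] with ω h z
  obtain ⟨k, z⟩ := mem_iUnion.1 z
  exact (h k z).mono fun x y => mem_iUnion.2 ⟨k, y⟩

theorem Av.anti {E E' V : S → Set Ω} (h : Av P U E V) (k : ∀ σ, E' σ ⊆ E σ) : Av P U E' V :=
  ⟨h.1, h.2.1, fun σ => (h.2.2 σ).mono fun _ z y x => z y (k σ x)⟩

theorem DD_mono {W W' : S × Pos → Set Ω} (h : ∀ i, W i ⊆ W' i) (τ : Pos) (σ : S) : DD W τ σ ⊆ DD W' τ σ :=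
  fun _ z => z.imp_right fun ⟨m, y⟩ => ⟨m, h _ y⟩

theorem Post.union {g : ℕ → S × Pos → Set Ω} (h : ∀ k, Post P U (g k)) : Post P U fun i => ⋃ k, g k i := by
  refine ⟨fun i => .iUnion fun k => (h k).1 i, fun σ q z => ?_, fun q => Ucl.union fun k => (h k).2.2.1 q,
    fun q m V hV σ => ?_⟩
  · filter_upwards [ae_all_iff.2 fun k => (h k).2.1 σ q z] with ω h z
    obtain ⟨k, z⟩ := mem_iUnion.1 z
    exact h k z
  · filter_upwards [ae_all_iff.2 fun k => (h k).2.2.2 q m V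
      (hV.anti (DD_mono (fun i => subset_iUnion (fun k => g k i) k) _)) σ] with ω h z
    obtain ⟨k, z⟩ := mem_iUnion.1 z
    exact h k z

variable [IsFiniteMeasure P]

theorem exAv (E : S → Set Ω) :
    ∃ V, Av P U E V ∧ ∀ V', Av P U E V' → ∀ σ, ∀ᵐ ω ∂P, ω ∈ V' σ → ω ∈ V σ := by
  refine esup P (Av P U E) (fun _ h => h.1) ⟨fun _ => ∅, fun _ => .empty, fun _ => ae_of_all _ fun _ h => h.elim,
    fun _ => ae_of_all _ fun _ h => h.elim⟩ fun g h => ⟨fun i => .iUnion fun k => (h k).1 i,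
      Ucl.union fun k => (h k).2.1, fun σ => ?_⟩
  filter_upwards [ae_all_iff.2 fun k => (h k).2.2 σ] with ω h z
  obtain ⟨k, z⟩ := mem_iUnion.1 z
  exact h k z

theorem exZ : ∃ Z, Post P U Z ∧
    ∀ c c' n V, Av P U (DD Z (rt c c' n)) V → ∀ σ, ∀ᵐ ω ∂P, ω ∈ V σ → ω ∈ Z (σ, rt c' c n) := by
  classical
  obtain ⟨Z, hZ, mx⟩ := esup P (Post P U) (fun _ h => h.1) ⟨fun _ => ∅, fun _ => .empty,
    fun _ _ _ => ae_of_all _ fun _ h => h, fun _ _ => ae_of_all _ fun _ h => h.elim,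
      fun _ _ _ _ _ => ae_of_all _ fun _ h => h.elim⟩ fun g h => Post.union h
  have add : ∀ (p : Pos) (N : S → Set Ω), (∀ σ, MeasurableSet (N σ)) → Ucl P U N →
      (∀ σ, ref p.2.1 p.2.2.1 σ p.2.2.2.2 → ∀ᵐ ω ∂P, ω ∉ N σ) →
      (∀ m V, Av P U (DD Z (sx p m)) V → ∀ σ, ∀ᵐ ω ∂P, ω ∈ N σ → ω ∉ V σ) →
      ∀ σ, ∀ᵐ ω ∂P, ω ∈ N σ → ω ∈ Z (σ, p) := fun p N h1 h2 h3 h4 σ => by
    let W : S × Pos → Set Ω := fun i => Z i ∪ {ω | i.2 = p ∧ ω ∈ N i.1}
    have hW : Post P U W := by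
      refine ⟨fun i => (hZ.1 i).union ((MeasurableSet.const _).inter (h1 _)), fun σ q z => ?_, fun q σ => ?_,
        fun q m V hV σ => ?_⟩
      · by_cases c : q = p
        · subst c
          filter_upwards [hZ.2.1 σ q z, h3 σ z] with ω a b y using y.elim a fun y => b y.2
        · filter_upwards [hZ.2.1 σ q z] with ω a y using y.elim a fun y => c y.1
      · filter_upwards [hZ.2.2.1 q σ, h2 σ] with ω a b y
        exact y.elim (fun y => (a y).mono fun _ => .inl) fun y => (b y.2).mono fun _ z => .inr ⟨y.1, z⟩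
      · have hV' := hV.anti (DD_mono (W := Z) (fun i => subset_union_left) _)
        by_cases c : q = p
        · subst c
          filter_upwards [hZ.2.2.2 q m V hV' σ, h4 m V hV' σ] with ω a b y using y.elim a fun y => b y.2
        · filter_upwards [hZ.2.2.2 q m V hV' σ] with ω a y using y.elim a fun y => (c y.1).elim
    filter_upwards [mx W hW (σ, p)] with ω a b using a (.inr ⟨rfl, b⟩)
  choose M M1 M2 using exAv (P := P) (U := U)
  let Z' : S × Pos → Set Ω := fun i => M (DD Z (fl i.2)) i.1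
  have hZ' : Post P U Z' := by
    refine ⟨fun i => (M1 _).1 _, fun σ q z => ?_, fun q => (M1 (DD Z (fl q))).2.1, fun q m' V hV σ => ?_⟩
    · filter_upwards [(M1 (DD Z (fl q))).2.2 σ] with ω a b using a b (.inl z)
    · have := add (nx (fl q) m') (fun σ => Z' (σ, q) ∩ V σ) (fun σ => ((M1 _).1 _).inter (hV.1 _))
        (fun σ => by
          filter_upwards [(M1 (DD Z (fl q))).2.1 σ, hV.2.1 σ] with ω a b y using (a y.1).and (b y.2))
        (fun σ z => by filter_upwards [hV.2.2 σ] with ω a b using a b.2 (.inl z))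
        (fun m V' hV' σ => by
          filter_upwards [M2 _ V' hV' σ, hV.2.2 σ] with ω a b y z using b y.2 (.inr ⟨m, a z⟩)) σ
      filter_upwards [this, (M1 (DD Z (fl q))).2.2 σ] with ω a b y z using b y (.inr ⟨m', a ⟨y, z⟩⟩)
  refine ⟨Z, hZ, fun c c' n V hV => add (rt c' c n) V hV.1 hV.2.1 (fun σ ⟨m, z, _⟩ => absurd z (Nat.not_lt_zero _))
    fun m V' hV' σ => ?_⟩
  filter_upwards [M2 _ V' hV' σ, hV.2.2 σ, mx Z' hZ' (σ, nx (rt c c' n) m)] with ω a b d y z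
    using b y (.inr ⟨m, d (a z)⟩)

theorem exY (hU : ∀ᵐ ω ∂P, U ω ≤ atTop ∧ (U ω).NeBot) : ∃ Y : Ω → ℕ → Bool, Measurable Y ∧
    ∀ A : Set ℕ, MeasurableSet {ω | A ∈ U ω} → ∀ᵐ ω ∂P, A ∈ U ω → Good (· ∈ A) (Y ω) := by
  obtain ⟨Z, hZ, hr⟩ := exZ (P := P) (U := U)
  let Y : Ω → ℕ → Bool := fun ω j => cd (∃ i : S × Pos, encode i = j ∧ ω ∈ Z i)
  have hY : ∀ ω i, Y ω (encode i) = true ↔ ω ∈ Z i := fun ω i => by
    simp only [Y, cd_true, encode_inj, exists_eq_left]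
  have hv : ∀ᵐ ω ∂P, ∀ σ q, val (Y ω) σ q ↔ ω ∈ Z (σ, q) := by
    refine ae_all_iff.2 fun σ => ae_all_iff.2 fun q => ?_
    by_cases c : ref q.2.1 q.2.2.1 σ q.2.2.2.2
    · filter_upwards [hZ.2.1 σ q c] with ω a using ⟨fun z => (z.2 c).elim, fun z => (a z).elim⟩
    · exact ae_of_all _ fun ω => ⟨fun z => (hY _ _).1 z.1, fun z => ⟨(hY _ _).2 z, c⟩⟩
  have mQ : ∀ σ (Q : List Pos), MeasurableSet {ω | ∀ q ∈ Q, ω ∈ Z (σ, q)} := fun σ Q => by
    have : {ω | ∀ q ∈ Q, ω ∈ Z (σ, q)} = ⋂ q, ⋂ _ : q ∈ Q, Z (σ, q) := by ext; simp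
    rw [this]
    exact .iInter fun q => .iInter fun _ => hZ.1 _
  have mD : ∀ τ σ, MeasurableSet (DD Z τ σ) := fun τ σ => by
    have : DD Z τ σ = {_ω | ref τ.1 τ.2.2.1 σ τ.2.2.2.1} ∪ ⋃ m, Z (σ, nx τ m) := by ext; simp [DD]
    rw [this]
    exact (MeasurableSet.const _).union (.iUnion fun _ => hZ.1 _)
  have uQ : ∀ᵐ ω ∂P, ∀ σ (Q : List Pos), (∀ q ∈ Q, ω ∈ Z (σ, q)) → ∀ᶠ x in U ω, ∀ q ∈ Q, ω ∈ Z (ext σ x, q) := by
    filter_upwards [ae_all_iff.2 fun q => ae_all_iff.2 fun σ => hZ.2.2.1 q σ] with ω a σ Q z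
    exact (eventually_all_finite (List.finite_toSet Q)).2 fun q y => a q σ (z q y)
  refine ⟨Y, measurable_pi_lambda _ fun j => measurable_to_bool ?_, fun A hA => ?_⟩
  · have : (fun ω => Y ω j) ⁻¹' {true} = ⋃ i : S × Pos, {_ω | encode i = j} ∩ Z i := by
      ext; simp [Y]
    rw [this]
    exact .iUnion fun i => (MeasurableSet.const _).inter (hZ.1 _)
  let N : List Pos → Pos → S → Set Ω := fun Q τ σ => {ω | A ∈ U ω ∧ (∀ q ∈ Q, ω ∈ Z (σ, q)) ∧
    ¬ ∃ σ', sub (· ∈ A) σ σ' ∧ (∀ q ∈ Q, ω ∈ Z (σ', q)) ∧ ω ∈ DD Z τ σ'}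
  have hN : ∀ Q τ, Av P U (DD Z τ) (N Q τ) := fun Q τ => by
    refine ⟨fun σ => hA.inter ((mQ σ Q).inter (MeasurableSet.compl ?_)), fun σ => ?_,
      fun σ => ae_of_all _ fun ω a b => a.2.2 ⟨σ, sub.rfl _ _, a.2.1, b⟩⟩
    · have : {ω | ∃ σ', sub (· ∈ A) σ σ' ∧ (∀ q ∈ Q, ω ∈ Z (σ', q)) ∧ ω ∈ DD Z τ σ'} =
          ⋃ σ', {_ω | sub (· ∈ A) σ σ'} ∩ ({ω | ∀ q ∈ Q, ω ∈ Z (σ', q)} ∩ DD Z τ σ') := by ext; simp
      exact (congrArg MeasurableSet this).mpr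
        (.iUnion fun σ' => (MeasurableSet.const _).inter ((mQ _ _).inter (mD _ _)))
    · filter_upwards [uQ, hU] with ω a b y
      filter_upwards [a σ Q y.2.1, y.1, b.1 (eventually_ge_atTop σ.length)] with x x1 x2 x3
      exact ⟨y.1, x1, fun ⟨σ', z1, z2⟩ => y.2.2 ⟨σ', (ext_sub x3 x2).trans z1, z2⟩⟩
  filter_upwards [hv, uQ, hU, ae_all_iff.2 fun Q => ae_all_iff.2 fun q => ae_all_iff.2 fun m =>
    ae_all_iff.2 fun σ => hZ.2.2.2 q m _ (hN Q (sx q m)) σ, ae_all_iff.2 fun Q => ae_all_iff.2 fun c =>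
      ae_all_iff.2 fun c' => ae_all_iff.2 fun n => ae_all_iff.2 fun σ => hr c c' n _ (hN Q (rt c c' n)) σ]
    with ω a b d e f g
  refine Good.of fun ⟨σ, Q, q, m⟩ => ?_
  by_cases h : vals (Y ω) σ Q
  swap
  · exact ⟨0, fun k => (h k).elim⟩
  have h' : ∀ q ∈ Q, ω ∈ Z (σ, q) := fun q z => (a _ _).1 (h q z)
  have res : ∀ τ, ω ∉ N Q τ σ → ∃ N, Res N (· ∈ A) (Y ω) σ Q τ := fun τ z => by
    obtain ⟨σ', z1, z2, z3⟩ : ∃ σ', sub (· ∈ A) σ σ' ∧ (∀ q ∈ Q, ω ∈ Z (σ', q)) ∧ ω ∈ DD Z τ σ' :=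
      by_contra fun y => z ⟨g, h', y⟩
    exact Res.of z1 (fun q y => (a _ _).2 (z2 q y)) (z3.imp_right fun ⟨m, y⟩ => ⟨m, (a _ _).2 y⟩)
  have := d.2
  obtain ⟨x, x1, x2, x3⟩ := ((b σ Q h').and ((show ∀ᶠ x in U ω, x ∈ A from g).and
    (d.1 (eventually_ge_atTop σ.length)))).exists
  obtain ⟨N1, n1⟩ : ∃ N, val (Y ω) σ q → Res N (· ∈ A) (Y ω) σ Q (sx q m) := by
    by_cases c : val (Y ω) σ q
    · exact (res _ (e Q q m σ ((a _ _).1 c))).imp fun _ z _ => z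
    · exact ⟨0, fun z => (c z).elim⟩
  obtain ⟨N2, n2⟩ : ∃ N, ¬ val (Y ω) σ (rt q.2.1 q.1 q.2.2.1) → Res N (· ∈ A) (Y ω) σ Q (rt q.1 q.2.1 q.2.2.1) := by
    by_cases c : val (Y ω) σ (rt q.2.1 q.1 q.2.2.1)
    · exact ⟨0, fun z => (z c).elim⟩
    · exact (res _ fun z => c ((a _ _).2 (f Q _ _ _ σ z))).imp fun _ z _ => z
  exact ⟨x + N1 + N2 + 1, fun _ => ⟨⟨x, by omega, x3, x2, fun q y => (a _ _).2 (x1 q y)⟩,
    fun z => (n1 z).mono (by omega) fun _ _ => id, fun z => (n2 z).mono (by omega) fun _ _ => id⟩⟩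
end

def dn (d n₀ N : ℕ) (A : ℕ → Prop) : Prop :=
  ∀ n ≤ N, n₀ ≤ n → n ≤ d * ((List.range n).countP fun i => cd (A i))

theorem meas_good (R N : ℕ) (A : ℕ → Prop) : MeasurableSet {Y | good R N A Y} :=
  (cl_good R N A).isOpen.measurableSet

theorem meas_Good (A : ℕ → Prop) : MeasurableSet {Y | Good A Y} := by
  have : {Y | Good A Y} = ⋂ R, ⋃ N, {Y | good R N A Y} := by ext; simp [Good]
  exact this ▸ .iInter fun R => .iUnion fun N => meas_good R N A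

theorem exP0 : ∃ P : Measure (ℕ → Bool), IsProbabilityMeasure P ∧
    ∀ (d n₀ : ℕ) (A : ℕ → Prop), (∀ N, dn d n₀ N A) → 1 ≤ d * P.real {Y | Good A Y} := by
  borelize (Ultrafilter ℕ)
  let L : ℕ → List (Ultrafilter ℕ × ℕ) := fun k => (List.range (k + 1)).map fun x => (pure x, 1)
  have hL : ∀ k (E : Ultrafilter ℕ → Prop), mass (L k) E = (List.range (k + 1)).countP fun x => cd (E (pure x)) :=
    fun k E => by
      show mass ((List.range (k + 1)).map _) E = _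
      induction List.range (k + 1) with
      | nil => rfl
      | cons a l ih =>
        rw [List.map_cons, mass_cons, ih, List.countP_cons]
        cases cd (E (pure a)) <;> simp [add_comm]
  have h1 : ∀ k, mass (L k) (fun _ => True) = k + 1 := fun k => by rw [hL, cd_true.2 trivial]; simp
  obtain ⟨P, hP, lim⟩ := exP L fun k => by rw [h1]; omega
  have cl : ∀ A : Set ℕ, IsClopen {u : Ultrafilter ℕ | A ∈ u} := fun A =>
    ⟨ultrafilter_isClosed_basic A, ultrafilter_isOpen_basic A⟩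
  have hU : ∀ᵐ u : Ultrafilter ℕ ∂P, (u : Filter ℕ) ≤ atTop ∧ (u : Filter ℕ).NeBot := by
    have : ∀ k, ∀ᵐ u : Ultrafilter ℕ ∂P, Iio k ∉ u := fun k => by
      refine measure_eq_zero_iff_ae_notMem.1 ((measureReal_eq_zero_iff (measure_ne_top _ _)).1 ?_ :
        P {u : Ultrafilter ℕ | Iio k ∈ u} = 0)
      refine le_antisymm (le_of_forall_pos_le_add fun ε hε => ?_) measureReal_nonneg
      obtain ⟨b, hb⟩ := exists_nat_one_div_lt hε
      have := lim _ univ (b + 1) 1 (cl (Iio k)) isClopen_univ (by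
        filter_upwards [eventually_ge_atTop ((b + 1) * k)] with n hn
        have e : mass (L n) (· ∈ univ) = n + 1 := h1 n
        have : mass (L n) (· ∈ {u : Ultrafilter ℕ | Iio k ∈ u}) ≤ k := by
          rw [hL, List.countP_eq_length_filter]
          refine le_of_le_of_eq (List.Subperm.length_le (List.subperm_of_subset
            (List.nodup_range.filter _) (l₂ := List.range k) fun x z => ?_)) List.length_range
          simpa using (List.mem_filter.1 z).2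
        rw [e]
        exact (Nat.mul_le_mul_left _ this).trans (by omega))
      rw [probReal_univ] at this
      push_cast at this
      have := (le_div_iff₀' (by positivity)).2 this
      rw [one_mul] at this
      linarith
    filter_upwards [ae_all_iff.2 this] with u a
    refine ⟨fun s hs => ?_, inferInstance⟩
    obtain ⟨k, hk⟩ := mem_atTop_sets.1 hs
    exact mem_of_superset (Ultrafilter.compl_mem_iff_notMem.2 (a k)) fun x z => hk x (not_lt.1 z)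
  obtain ⟨Y, hY, hG⟩ := exY hU
  refine ⟨P.map Y, Measure.isProbabilityMeasure_map hY.aemeasurable, fun d n₀ A hA => ?_⟩
  have := lim univ _ 1 d isClopen_univ (cl {x | A x}) (by
    filter_upwards [eventually_ge_atTop n₀] with n hn
    have e : mass (L n) (· ∈ univ) = n + 1 := h1 n
    rw [e, hL, one_mul]
    exact hA (n + 1) (n + 1) le_rfl (by omega))
  rw [probReal_univ] at this
  rw [map_measureReal_apply hY (meas_Good A)]
  refine le_trans (by simpa using this) (mul_le_mul_of_nonneg_left ?_ (Nat.cast_nonneg _))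
  exact ENNReal.toReal_mono (measure_ne_top _ _) (measure_mono_ae (hG {x | A x} (cl _).isOpen.measurableSet))

end Pool.Agent.H.MP_64713a_lc
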