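import Pool.Agent.H.MP_64713a_lc.C
import Pool.Agent.H.MP_64713a_lc.D

set_option autoImplicit false

/-! Avoiding a set that is not hyperarithmetic inside an effective class of measures. -/

namespace Pool.Agent.H.MP_64713a_lc

open Pool.Agent.Lib.helper21.PR MeasureTheory Filter Topology Set Encodable

attribute [local irreducible] Primrec Computable

abbrev LL := List (List Bool × ℕ)
abbrev H := S × ℕ × ℕ × List (ℕ × Bool) × ℕ × Bool

def ev (σ : S) (c c' : ℕ) (l : List (ℕ × Bool)) (Y : ℕ → Bool) : Prop :=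
  ∀ p ∈ l, (val Y σ (rt c c' p.1) ↔ p.2 = true)
def satH (h : H) (L : LL) : Prop :=
  mass L (fun y => ev h.1 h.2.1 h.2.2.1 h.2.2.2.1 (pt y)) ≤
    2 * mass L fun y => (val (pt y) h.1 (rt h.2.1 h.2.2.1 h.2.2.2.2.1) ↔ h.2.2.2.2.2 = true) ∧
      ev h.1 h.2.1 h.2.2.1 h.2.2.2.1 (pt y)
def satG (d n₀ r N : ℕ) (L : LL) : Prop :=
  0 < mass L (fun _ => True) ∧ ∀ a < 2 ^ N, dn d n₀ N (tb a) →
    mass L (fun _ => True) ≤ 2 * d * mass L fun y => good r N (tb a) (pt y)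
def Sat (d n₀ : ℕ) (Γ : List H) (Δ : List (ℕ × ℕ)) (L : LL) : Prop :=
  (∀ h ∈ Γ, satH h L) ∧ ∀ g ∈ Δ, satG d n₀ g.1 g.2 L
def Re (d n₀ : ℕ) (Γ : List H) (Δ : List (ℕ × ℕ)) : Prop :=
  ∃ N : ℕ → ℕ, ∀ m, ∃ L, Sat d n₀ Γ Δ L ∧ ∀ r ≤ m, satG d n₀ r (N r) L
def dL (j : ℕ) : LL := (decode (α := LL) j).getD []
def Pi (Y B : Set ℕ) : Prop :=
  ∃ R : ℕ → List ℕ → List ℕ → Prop, ComputablePred (fun p : ℕ × List ℕ × List ℕ => R p.1 p.2.1 p.2.2) ∧
    ∀ n : ℕ, n ∈ Y ↔ ∀ f : ℕ → ℕ, ∃ m : ℕ,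
      R n ((List.range m).map (B.indicator (fun _ => (1 : ℕ)))) ((List.range m).map f)

section
variable {α : Type} [Primcodable α] {c c' d n₀ r N a : α → ℕ} {σ : α → S} {y : α → List Bool} {L : α → LL}

@[fun_prop] theorem p_mass {E : α → List Bool → Prop} (hL : Primrec L)
    (hE : Primrec fun p : α × List Bool => cd (E p.1 p.2)) : Primrec fun x => mass (L x) (E x) := by
  have : Primrec fun p : α × List Bool × ℕ => cd (E p.1 p.2.1) :=
    p_comp (g := fun p : α × List Bool × ℕ => (p.1, p.2.1)) hE (by fun_prop)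
  exact p_lsum (p_map (p_cond this (by fun_prop) (by fun_prop)) hL)
@[fun_prop] theorem p_true : Primrec fun _ : α => cd True := p_const _
@[fun_prop] theorem p_ev {l : α → List (ℕ × Bool)} (hσ : Primrec σ) (hc : Primrec c) (hc' : Primrec c')
    (hl : Primrec l) (hy : Primrec y) : Primrec fun x => cd (ev (σ x) (c x) (c' x) (l x) (pt (y x))) := by
  unfold ev; fun_prop
@[fun_prop] theorem p_satH {h : α → H} (hh : Primrec h) (hL : Primrec L) :
    Primrec fun x => cd (satH (h x) (L x)) := by unfold satH; fun_prop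
@[fun_prop] theorem p_dn (hd : Primrec d) (hn : Primrec n₀) (hN : Primrec N) (ha : Primrec a) :
    Primrec fun x => cd (dn (d x) (n₀ x) (N x) (tb (a x))) := by unfold dn; fun_prop
@[fun_prop] theorem p_satG (hd : Primrec d) (hn : Primrec n₀) (hr : Primrec r) (hN : Primrec N) (hL : Primrec L) :
    Primrec fun x => cd (satG (d x) (n₀ x) (r x) (N x) (L x)) := by unfold satG; fun_prop
@[fun_prop] theorem p_Sat {Γ : α → List H} {Δ : α → List (ℕ × ℕ)} (hd : Primrec d) (hn : Primrec n₀)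
    (hΓ : Primrec Γ) (hΔ : Primrec Δ) (hL : Primrec L) :
    Primrec fun x => cd (Sat (d x) (n₀ x) (Γ x) (Δ x) (L x)) := by unfold Sat; fun_prop
@[fun_prop] theorem p_dL (ha : Primrec a) : Primrec fun x => dL (a x) := by unfold dL; fun_prop
end

theorem pi_Re (d n₀ : ℕ) (Γ : ℕ → List H) (hΓ : Primrec Γ) (Δ : List (ℕ × ℕ)) :
    Pi {n | ¬ Re d n₀ (Γ n) Δ} ∅ := by
  refine ⟨fun n _ f => ∃ i < f.length, ¬ (Sat d n₀ (Γ n) Δ (dL (f.getD i 0).unpair.2) ∧
    ∀ r ≤ i, satG d n₀ r (f.getD r 0).unpair.1 (dL (f.getD i 0).unpair.2)),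
      (pred (by fun_prop)).computablePred, fun n => ?_⟩
  have g : ∀ (f : ℕ → ℕ) m i, i < m → ((List.range m).map f).getD i 0 = f i := fun f m i h => by
    simp [List.getD_eq_getElem?_getD, h]
  constructor
  · intro h f
    by_contra z
    refine h ⟨fun r => (f r).unpair.1, fun m => ⟨dL (f m).unpair.2, ?_⟩⟩
    by_contra y
    refine z ⟨m + 1, m, by simp, fun ⟨x1, x2⟩ => y ?_⟩
    rw [g f _ _ (Nat.lt_succ_self _)] at x1 x2
    refine ⟨x1, fun r k => ?_⟩
    have := x2 r k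
    rwa [g f _ _ (Nat.lt_succ_of_le k)] at this
  · rintro h ⟨N, hN⟩
    choose L hL using hN
    obtain ⟨m, i, hi, z⟩ := h fun j => Nat.pair (N j) (encode (L j))
    have hi : i < m := by simpa using hi
    have e : dL (encode (L i)) = L i := by rw [dL, encodek]; rfl
    rw [g _ _ _ hi, Nat.unpair_pair, e] at z
    refine z ⟨(hL i).1, fun r k => ?_⟩
    rw [g _ _ _ (k.trans_lt hi), Nat.unpair_pair]
    exact (hL i).2 r k

theorem satH_or (σ : S) (c c' : ℕ) (l : List (ℕ × Bool)) (n : ℕ) (L : LL) :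
    satH (σ, c, c', l, n, true) L ∨ satH (σ, c, c', l, n, false) L := by
  have := mass_split L (fun y => ev σ c c' l (pt y)) fun y => val (pt y) σ (rt c c' n)
  simp only [satH, iff_true, Bool.false_eq_true, iff_false]
  omega

theorem Re.split {d n₀ : ℕ} {Γ : List H} {Δ : List (ℕ × ℕ)} (h : Re d n₀ Γ Δ) (σ : S) (c c' : ℕ)
    (l : List (ℕ × Bool)) (n : ℕ) :
    Re d n₀ ((σ, c, c', l, n, true) :: Γ) Δ ∨ Re d n₀ ((σ, c, c', l, n, false) :: Γ) Δ := by
  obtain ⟨N, hN⟩ := h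
  by_contra z
  obtain ⟨z1, z2⟩ := not_or.1 z
  obtain ⟨m1, z1⟩ := not_forall.1 fun k => z1 ⟨N, k⟩
  obtain ⟨m2, z2⟩ := not_forall.1 fun k => z2 ⟨N, k⟩
  obtain ⟨L, a, b⟩ := hN (m1 + m2)
  rcases satH_or σ c c' l n L with y | y
  · exact z1 ⟨L, ⟨List.forall_mem_cons.2 ⟨y, a.1⟩, a.2⟩, fun r k => b r (by omega)⟩
  · exact z2 ⟨L, ⟨List.forall_mem_cons.2 ⟨y, a.1⟩, a.2⟩, fun r k => b r (by omega)⟩

theorem Re.fix {d n₀ : ℕ} {Γ : List H} {Δ : List (ℕ × ℕ)} (h : Re d n₀ Γ Δ) (r : ℕ) :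
    ∃ N, Re d n₀ Γ ((r, N) :: Δ) := by
  obtain ⟨N, hN⟩ := h
  refine ⟨N r, N, fun m => ?_⟩
  obtain ⟨L, a, b⟩ := hN (m + r)
  exact ⟨L, ⟨a.1, List.forall_mem_cons.2 ⟨b r (by omega), a.2⟩⟩, fun r k => b r (by omega)⟩

theorem Re.avoid {d n₀ : ℕ} {Γ : List H} {Δ : List (ℕ × ℕ)} (h : Re d n₀ Γ Δ) {X : Set ℕ}
    (hX : ¬ (Pi X ∅ ∧ Pi Xᶜ ∅)) (σ : S) (c c' : ℕ) (l : List (ℕ × Bool)) :
    ∃ n, Re d n₀ ((σ, c, c', l, n, cd (n ∉ X)) :: Γ) Δ := by
  by_contra z
  have z := not_exists.1 z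
  have e1 : X = {n | ¬ Re d n₀ ((σ, c, c', l, n, false) :: Γ) Δ} := Set.ext fun n =>
    ⟨fun k => cd_false (not_not.2 k) ▸ z n, fun k => by_contra fun y =>
      z n (cd_true.2 y ▸ (h.split σ c c' l n).resolve_right k)⟩
  have e2 : Xᶜ = {n | ¬ Re d n₀ ((σ, c, c', l, n, true) :: Γ) Δ} := Set.ext fun n =>
    ⟨fun k => cd_true.2 (show n ∉ X from k) ▸ z n, fun k y =>
      z n (cd_false (not_not.2 y) ▸ (h.split σ c c' l n).resolve_left k)⟩
  exact hX ⟨e1 ▸ pi_Re d n₀ _ (by fun_prop) Δ, e2 ▸ pi_Re d n₀ _ (by fun_prop) Δ⟩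

theorem dn.congr {d n₀ N n : ℕ} {A A' : ℕ → Prop} (h : dn d n₀ N A) (k : n ≤ N) (e : ∀ i < n, A i ↔ A' i) :
    dn d n₀ n A' := fun j a b => by
  rw [← List.countP_congr (p := fun i => cd (A i)) fun i z => by
    rw [cd_true, cd_true]; exact e i ((List.mem_range.1 z).trans_le a)]
  exact h j (a.trans k) b

theorem lim_up {P : Measure (ℕ → Bool)} [IsFiniteMeasure P] {s : ℕ → Set (ℕ → Bool)} (h : Monotone s) :
    Tendsto (fun n => P.real (s n)) atTop (𝓝 (P.real (⋃ n, s n))) :=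
  (ENNReal.tendsto_toReal (measure_ne_top _ _)).comp (tendsto_measure_iUnion_atTop h)

theorem lim_down {P : Measure (ℕ → Bool)} [IsFiniteMeasure P] {s : ℕ → Set (ℕ → Bool)} (h : Antitone s)
    (m : ∀ n, MeasurableSet (s n)) : Tendsto (fun n => P.real (s n)) atTop (𝓝 (P.real (⋂ n, s n))) :=
  (ENNReal.tendsto_toReal (measure_ne_top _ _)).comp
    (tendsto_measure_iInter_atTop (fun n => (m n).nullMeasurableSet) h ⟨0, measure_ne_top _ _⟩)

theorem re_nil (d n₀ : ℕ) : Re d n₀ [] [] := by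
  obtain ⟨P, hP, h⟩ := exP0
  have hN : ∀ r, ∃ N, ∀ a < 2 ^ N, dn d n₀ N (tb a) → 1 < ((2 * d : ℕ) : ℝ) * P.real {Y | good r N (tb a) Y} :=
    fun r => by
      by_contra z
      push Not at z
      choose a _ a1 a2 using z
      let A : ℕ → Prop := fun i => ∀ᶠ N in (hyperfilter ℕ : Filter ℕ), tb (a N) i
      have ag : ∀ n, ∀ᶠ N in (hyperfilter ℕ : Filter ℕ), n ≤ N ∧ ∀ i < n, tb (a N) i ↔ A i := fun n => by
        refine ((eventually_ge_atTop n).filter_mono Nat.hyperfilter_le_atTop).and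
          ((eventually_all_finite (Set.finite_lt_nat n)).2 fun i _ => ?_)
        by_cases c : A i
        · exact c.mono fun _ z => iff_of_true z c
        · exact (Ultrafilter.eventually_not.2 c).mono fun _ z => iff_of_false z c
      have h1 := h d n₀ A fun n => by
        obtain ⟨N, z, y⟩ := (ag n).exists
        exact (a1 N).congr z y
      have h2 : P.real {Y | Good A Y} ≤ P.real (⋃ M, {Y | good r M A Y}) :=
        measureReal_mono fun Y z => mem_iUnion.2 (z r)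
      have h3 := (lim_up (P := P) (s := fun M => {Y | good r M A Y})
        fun M M' k Y z => good.mono z k fun _ _ => id).const_mul ((2 * d : ℕ) : ℝ)
      obtain ⟨M, hM⟩ := (h3.eventually (lt_mem_nhds (show (1 : ℝ) < _ by
        push_cast
        nlinarith [mul_le_mul_of_nonneg_left h2 (Nat.cast_nonneg (α := ℝ) d)]))).exists
      obtain ⟨N, z, y⟩ := (ag M).exists
      refine absurd (hM.trans_le (le_trans (mul_le_mul_of_nonneg_left ?_ (Nat.cast_nonneg _)) (a2 N))) (lt_irrefl _)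
      exact measureReal_mono fun Y x => good.mono x z fun i k => (y i k).2
  choose N hN using hN
  refine ⟨N, fun m => ?_⟩
  classical
  let J := {p : Σ r : Fin (m + 1), Fin (2 ^ N r) // dn d n₀ (N p.1) (tb p.2)}
  let E : J → Set (ℕ → Bool) := fun p => {Y | good p.1.1 (N p.1.1) (tb p.1.2) Y}
  obtain ⟨L, l1, l2⟩ := approx P E (fun p => meas_good _ _ _) (2 * d) fun p => hN _ _ p.1.2.2 p.2
  have tr : ∀ Y : ℕ → Bool, ∃ y, ∀ j, Y ∈ E j → pt y ∈ E j := fun Y => by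
    have t : Tendsto (fun n => pt ((List.range n).map Y)) atTop (𝓝 Y) := tendsto_pi_nhds.2 fun i =>
      tendsto_const_nhds.congr' (by
        filter_upwards [eventually_gt_atTop i] with n k
        simp [pt, List.getD_eq_getElem?_getD, k])
    obtain ⟨n, hn⟩ := (eventually_all.2 fun j : J => show ∀ᶠ n in atTop, Y ∈ E j → pt ((List.range n).map Y) ∈ E j by
      by_cases c : Y ∈ E j
      · exact (t.eventually ((cl_good _ _ _).isOpen.mem_nhds c)).mono fun _ z _ => z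
      · exact .of_forall fun _ z => (c z).elim).exists
    exact ⟨_, hn⟩
  choose tr htr using tr
  refine ⟨L.map fun p => (tr p.1, p.2), ⟨fun _ z => absurd z List.not_mem_nil, fun _ z => absurd z List.not_mem_nil⟩,
    fun r k => ⟨by rwa [mass_map], fun a a1 a2 => ?_⟩⟩
  rw [mass_map, mass_map]
  exact (l2 ⟨⟨⟨r, Nat.lt_succ_of_le k⟩, ⟨a, a1⟩⟩, a2⟩).trans (Nat.mul_le_mul_left _
    (mass_mono _ fun Y => htr Y ⟨⟨⟨r, Nat.lt_succ_of_le k⟩, ⟨a, a1⟩⟩, a2⟩))

theorem cl_ev (σ : S) (c c' : ℕ) (l : List (ℕ × Bool)) : Cl (ev σ c c' l) :=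
  .all l fun _ => (cl_val _ _).iff (.const _)

theorem exGood {d n₀ : ℕ} {A X : Set ℕ} (hA : ∀ N, dn d n₀ N (· ∈ A)) (hX : ¬ (Pi X ∅ ∧ Pi Xᶜ ∅)) :
    ∃ Y, Good (· ∈ A) Y ∧ ∀ σ c c', ∃ n, ¬ (val Y σ (rt c c' n) ↔ n ∈ X) := by
  let l : ℕ → List (ℕ × Bool) := fun k => (List.range k).map fun n => (n, cd (n ∈ X))
  have step : ∀ (s : List H × List (ℕ × ℕ)) (r : ℕ) (j : S × ℕ × ℕ × ℕ), ∃ s' : List H × List (ℕ × ℕ),
      Re d n₀ s.1 s.2 → Re d n₀ s'.1 s'.2 ∧ ∃ n N,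
        s' = ((j.1, j.2.1, j.2.2.1, l j.2.2.2, n, cd (n ∉ X)) :: s.1, (r, N) :: s.2) := fun s r j => by
    by_cases h : Re d n₀ s.1 s.2
    · obtain ⟨n, h⟩ := h.avoid hX j.1 j.2.1 j.2.2.1 (l j.2.2.2)
      obtain ⟨N, h⟩ := h.fix r
      exact ⟨(_, _), fun _ => ⟨h, n, N, rfl⟩⟩
    · exact ⟨s, fun k => (h k).elim⟩
  choose F hF using step
  obtain ⟨e, he⟩ := exists_surjective_nat (S × ℕ × ℕ × ℕ)
  let s : ℕ → List H × List (ℕ × ℕ) := fun k => Nat.rec ([], []) (fun k x => F x k (e k)) k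
  have v : ∀ k, Re d n₀ (s k).1 (s k).2 := fun k => by
    induction k with
    | zero => exact re_nil d n₀
    | succ k ih => exact (hF _ _ _ ih).1
  have h1 : ∀ k, ∃ n N, s (k + 1) = (((e k).1, (e k).2.1, (e k).2.2.1, l (e k).2.2.2, n, cd (n ∉ X)) :: (s k).1,
    (k, N) :: (s k).2) := fun k => (hF (s k) k (e k) (v k)).2
  have mo : ∀ k k', k ≤ k' → (s k).1 ⊆ (s k').1 ∧ (s k).2 ⊆ (s k').2 := fun k k' h => by
    induction h with
    | refl => exact ⟨fun _ => id, fun _ => id⟩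
    | @step k' _ ih =>
      obtain ⟨n, N, z⟩ := h1 k'
      rw [Nat.succ_eq_add_one, z]
      exact ⟨fun _ y => List.mem_cons_of_mem _ (ih.1 y), fun _ y => List.mem_cons_of_mem _ (ih.2 y)⟩
  have hL : ∀ k, ∃ L, Sat d n₀ (s k).1 (s k).2 L ∧ 0 < mass L fun _ => True := fun k => by
    obtain ⟨N, z⟩ := v k
    obtain ⟨L, a, b⟩ := z 0
    exact ⟨L, a, (b 0 le_rfl).1⟩
  choose L L1 L2 using hL
  obtain ⟨P, hP, lim⟩ := exP (fun k => (L k).map fun p => (pt p.1, p.2)) fun k => by rw [mass_map]; exact L2 k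
  have g1 : ∀ r, 1 ≤ ((2 * d : ℕ) : ℝ) * P.real (⋃ N, {Y | good r N (· ∈ A) Y}) := fun r => by
    obtain ⟨n, N, z⟩ := h1 r
    let a := Nat.ofBits fun i : Fin N => cd (i.1 ∈ A)
    have ha : ∀ i < N, i ∈ A ↔ tb a i := fun i k => by
      have := Nat.testBit_ofBits_lt (fun i : Fin N => cd (i.1 ∈ A)) i k
      rw [Nat.testBit_eq_decide_div_mod_eq] at this
      rw [← cd_true (p := i ∈ A), ← this, decide_eq_true_iff]
      rfl
    have := lim univ _ 1 (2 * d) isClopen_univ (cl_good r N (tb a)) (by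
      filter_upwards [eventually_ge_atTop (r + 1)] with k hk
      rw [mass_map, mass_map, one_mul]
      exact ((L1 k).2 (r, N) ((mo _ _ hk).2 (by rw [z]; exact List.mem_cons_self))).2 a (Nat.ofBits_lt_two_pow _)
        ((hA N).congr le_rfl ha))
    rw [probReal_univ, Nat.cast_one, one_mul] at this
    refine this.trans (mul_le_mul_of_nonneg_left (measureReal_mono fun Y y => mem_iUnion.2 ⟨N, ?_⟩) (Nat.cast_nonneg _))
    exact good.mono y le_rfl fun i k => (ha i k).2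
  have g2 : P {Y | Good (· ∈ A) Y} ≠ 0 := fun z => by
    have e : {Y | Good (· ∈ A) Y} = ⋂ r, ⋃ N, {Y | good r N (· ∈ A) Y} := by ext; simp [Good]
    have := ge_of_tendsto' ((lim_down (P := P) (s := fun r => ⋃ N, {Y | good r N (· ∈ A) Y})
      (fun r r' k => iUnion_mono fun N Y y i x => y i (x.trans_le k))
      fun r => .iUnion fun N => meas_good _ _ _).const_mul ((2 * d : ℕ) : ℝ)) g1
    rw [← e, Measure.real, z] at this
    norm_num at this
  have g3 : ∀ σ c c', P {Y | ∀ n, val Y σ (rt c c' n) ↔ n ∈ X} = 0 := fun σ c c' => by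
    have hl : ∀ k Y, ev σ c c' (l k) Y ↔ ∀ n < k, (val Y σ (rt c c' n) ↔ n ∈ X) := fun k Y => by
      simp [ev, l]
    have e' : {Y | ∀ n, val Y σ (rt c c' n) ↔ n ∈ X} = ⋂ k, {Y | ev σ c c' (l k) Y} := by
      ext Y
      simp only [mem_setOf_eq, mem_iInter, hl]
      exact ⟨fun z _ n _ => z n, fun z n => z (n + 1) n (Nat.lt_succ_self _)⟩
    have t := lim_down (P := P) (s := fun k => {Y | ev σ c c' (l k) Y})
      (fun k k' x Y y => (hl _ _).2 fun n z => (hl _ _).1 y n (z.trans_le x))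
      fun k => (cl_ev _ _ _ _).isOpen.measurableSet
    rw [← e'] at t
    have b : ∀ k, 2 * P.real {Y | ∀ n, val Y σ (rt c c' n) ↔ n ∈ X} ≤ P.real {Y | ev σ c c' (l k) Y} := fun k => by
      obtain ⟨r, hr⟩ := he (σ, c, c', k)
      obtain ⟨n, N, z⟩ := h1 r
      rw [hr] at z
      have cw := ((cl_val σ (rt c c' n)).iff (.const (cd (n ∉ X) = true))).and (cl_ev σ c c' (l k))
      have := lim _ _ 1 2 (cl_ev σ c c' (l k)) cw (by
        filter_upwards [eventually_ge_atTop (r + 1)] with k' hk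
        rw [mass_map, mass_map, one_mul]
        exact (L1 k').1 _ ((mo _ _ hk).1 (by rw [z]; exact List.mem_cons_self)))
      have u := measureReal_union (μ := P) (s₁ := {Y | ∀ n, val Y σ (rt c c' n) ↔ n ∈ X})
        (disjoint_left.2 fun Y y x => iff_not_self ((y n).symm.trans (x.1.trans cd_true))) cw.isOpen.measurableSet
      have w : P.real ({Y | ∀ n, val Y σ (rt c c' n) ↔ n ∈ X} ∪ {Y | (val Y σ (rt c c' n) ↔ cd (n ∉ X) = true) ∧
          ev σ c c' (l k) Y}) ≤ P.real {Y | ev σ c c' (l k) Y} :=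
        measureReal_mono (union_subset (fun Y y => (hl _ _).2 fun n _ => y n) fun Y y => y.2)
      push_cast at this
      linarith
    have := ge_of_tendsto' t b
    rw [← measureReal_eq_zero_iff]
    exact le_antisymm (by linarith) measureReal_nonneg
  by_contra z
  refine g2 (measure_mono_null (t := ⋃ σ, ⋃ c, ⋃ c', {Y | ∀ n, val Y σ (rt c c' n) ↔ n ∈ X}) (fun Y y => ?_)
    (measure_iUnion_null fun σ => measure_iUnion_null fun c => measure_iUnion_null fun c' => g3 σ c c'))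
  by_contra x
  simp only [mem_iUnion, mem_setOf_eq, not_exists, not_forall] at x
  exact z ⟨Y, y, x⟩

end Pool.Agent.H.MP_64713a_lc
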